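import Pool.Agent.H446R3.RS.Hyp

/-!
# The rigid synchrony conjecture

Every rigid synchrony pattern of a hyperbolic periodic orbit of an admissible `C¹` vector field of a
coupled cell network is balanced.

The definitions `Network`, `InputIso`, `Ph`, `st`, `Admissible` are in
`Pool/Agent/H446R3/RS/Net.lean`, the definition `IsFund` is in `Pool/Agent/H446R3/RS/Lin.lean`, and
`PeriodicOrbit`, `Hyperbolic` are in `Pool/Agent/H446R3/RS/Hyp.lean`.

Idea of the proof. Among all small admissible deformations of the orbit and all times on the
deformed orbits, maximise the number of pairs of nodes in different states plus the number of nodes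
with nonzero velocity. At a maximiser this instantaneous pattern does not change under further small
admissible perturbations. Perturbing by bump functions with shrinking support around the input tuple
of a node, the first order response of the orbit is bounded by the time integral of the bump along
the orbit, hence tends to zero, unless the orbit spends positive time at that tuple. This forces
matching input tuples for nodes in equal states. Nodes whose input tuples are at rest for a positive
time are treated by a dimension count. So the instantaneous pattern is balanced (for the states at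
that instant), the corresponding polydiagonal is flow-invariant, and the orbit stays in it for all
times; as the deformation is small, the pattern is the synchrony pattern of the original orbit.
-/

set_option autoImplicit false

open Pool.Agent.H446R3.RS

namespace Pool.Agent.Results.MP_e1010f_an.RigidSynchrony

/-- The synchrony pattern of a curve `x` in phase space: the equivalence relation on the nodes given
by `c ~ d` iff `x_c(t) = x_d(t)` for all `t`. -/
def pattern {N : Network} {V : N.SType → Type} (x : ℝ → Ph N V) : Setoid N.Node where
  r := fun c d => ∀ t, st (x t) c = st (x t) d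
  iseqv := ⟨fun _ _ => rfl, fun h t => (h t).symm, fun h h' t => (h t).trans (h' t)⟩

/-- An equivalence relation `r` on the nodes is balanced if for `r`-related nodes `c`, `d` there is
an input isomorphism `β : I(c) → I(d)` such that the tails of `e` and of `β(e)` are `r`-related for
every arrow `e` in `I(c)`. -/
def Balanced {N : Network} (r : Setoid N.Node) : Prop :=
  ∀ c d, r c d → ∃ β : InputIso N c d, ∀ e : N.In c, r (N.tail e.1) (N.tail (β.toEquiv e).1)

/-- The synchrony pattern of the `T`-periodic orbit `x` of the admissible field `f` is rigid: for
every admissible field `f'` sufficiently `C¹`-close to `f`, the nearby periodic orbit of `f'` (every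
periodic orbit `x'` of `f'` whose period `T'` is close to `T` and which is uniformly close to `x`)
satisfies `x'_c = x'_d` for all times whenever `x_c = x_d` for all times. -/
def RigidPattern {N : Network} {V : N.SType → Type} [∀ τ, NormedAddCommGroup (V τ)]
    [∀ τ, NormedSpace ℝ (V τ)] (f : Ph N V → Ph N V) (x : ℝ → Ph N V) (T : ℝ) : Prop :=
  ∃ δ > 0, ∀ f' : Ph N V → Ph N V, Admissible f' →
    (∀ z, ‖f' z - f z‖ < δ ∧ ‖fderiv ℝ f' z - fderiv ℝ f z‖ < δ) →
    ∀ (x' : ℝ → Ph N V) (T' : ℝ), PeriodicOrbit f' x' T' → |T' - T| < δ →
      (∀ t ∈ Set.Icc 0 T, ‖x' t - x t‖ < δ) → ∀ c d, pattern x c d → pattern x' c d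

/-- **Rigid synchrony**: for every network, every admissible `C¹` vector field `f` and every
hyperbolic periodic orbit of `f`, if the synchrony pattern of the orbit is rigid then it is
balanced. -/
theorem result (N : Network) (V : N.SType → Type) [∀ τ, NormedAddCommGroup (V τ)]
    [∀ τ, NormedSpace ℝ (V τ)] [∀ τ, FiniteDimensional ℝ (V τ)] [∀ τ, Nontrivial (V τ)]
    (f : Ph N V → Ph N V) (hf : Admissible f) (x : ℝ → Ph N V) (T : ℝ)
    (hx : PeriodicOrbit f x T) (hh : Hyperbolic f x T) (hr : RigidPattern f x T) :
    Balanced (pattern x) := by
  obtain ⟨δ, hδ, hrig⟩ := hr
  have hp : PerOrb f x T := hx.perOrb hf.smooth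
  intro c d hcd
  exact core hf hp (hh.nDeg hf.smooth hp) hδ
    (fun f' x' T' h1 h2 h3 h4 h5 a b hab => hrig f' h1 h2 x' T' h3.periodicOrbit h4 h5 a b hab)
    c d hcd

end Pool.Agent.Results.MP_e1010f_an.RigidSynchrony
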